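import Pool.Agent.H73.CBE.Stmts

set_option autoImplicit false

open Set Filter Topology

namespace Pool.CBE

theorem hpr_zero {n : ℕ} (f : E n → E n) (d : ℕ) : H f d 0 = 0 := by
  unfold H
  rw [norm_zero]
  ring

theorem HPR_thm (h1 : FEQStmt) : HPRStmt := by
  intro n f d η C θ a hH
  obtain ⟨⟨L, hL0, hL⟩, hF⟩ := h1 n f d η C θ a hH
  have hd0 : (d : ℝ) ≠ 0 := by
    have := hH.hd
    have h2 : d ≠ 0 := by omega
    exact_mod_cast h2
  have hdn : d ≠ 0 := by
    have := hH.hd
    omega
  have hf0 : f 0 = 0 := by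
    have := hH.hom 0 0
    rwa [zero_smul, zero_pow hdn, zero_smul] at this
  refine ⟨?_, ?_, Real.exp (-L), Real.exp L, Real.exp_pos _, Real.exp_pos _, ?_⟩
  · intro z
    by_cases hz : z = 0
    · subst hz
      rw [hf0, hpr_zero, zero_pow hdn]
    · have hz' : 0 < ‖z‖ := norm_pos_iff.mpr hz
      have hfz : 0 < ‖f z‖ := lt_of_lt_of_le (mul_pos hH.hη (pow_pos hz' d)) (hH.lo z)
      have e1 := (hF z hz).1
      have e2 : S f d (f z) = d * S f d z - u f d z := by
        rw [e1]
        field_simp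
        ring
      have hz2 : 0 < ‖z‖ ^ 2 := by positivity
      have hfz2 : 0 < ‖f z‖ ^ 2 := by positivity
      have e3 : Real.exp (u f d z) = ‖f z‖ ^ 2 / (‖z‖ ^ 2) ^ d := by
        unfold u
        rw [Real.exp_sub, Real.exp_log hfz2, Real.exp_nat_mul, Real.exp_log hz2]
      unfold H
      rw [e2, Real.exp_sub, e3, Real.exp_nat_mul, mul_pow]
      field_simp
  · intro c z
    by_cases hz : z = 0
    · subst hz
      rw [smul_zero, hpr_zero, mul_zero]
    by_cases hc : c = 0
    · subst hc
      rw [zero_smul, hpr_zero, norm_zero]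
      ring
    unfold H
    rw [(hF z hz).2 c hc, norm_smul]
    ring
  · intro z
    by_cases hz : z = 0
    · subst hz
      rw [hpr_zero, norm_zero]
      simp
    have h3 := abs_le.mp (hL z hz)
    have hz2 : 0 ≤ ‖z‖ ^ 2 := by positivity
    unfold H
    constructor
    · rw [mul_comm]
      exact mul_le_mul_of_nonneg_left (Real.exp_le_exp.mpr h3.1) hz2
    · rw [mul_comm]
      exact mul_le_mul_of_nonneg_right (Real.exp_le_exp.mpr h3.2) hz2

end Pool.CBE
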